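import Mathlib

/-!
Basic facts on graphs in which every seven vertices contain an independent triple.
-/

namespace Dad

open Finset
open scoped Classical

variable {V : Type*} [Fintype V]

/-- A finite set of vertices is independent. -/
def Ind (G : SimpleGraph V) (I : Finset V) : Prop := ∀ a ∈ I, ∀ b ∈ I, ¬ G.Adj a b

/-- Every seven vertices contain an independent triple. -/
def Seven (G : SimpleGraph V) : Prop :=
  ∀ s : Finset V, s.card = 7 → ∃ a ∈ s, ∃ b ∈ s, ∃ c ∈ s,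
    a ≠ b ∧ b ≠ c ∧ a ≠ c ∧ ¬ G.Adj a b ∧ ¬ G.Adj b c ∧ ¬ G.Adj a c

/-- No `K_4`. -/
def K4Free (G : SimpleGraph V) : Prop :=
  ∀ a b c d, G.Adj a b → G.Adj a c → G.Adj a d → G.Adj b c → G.Adj b d → G.Adj c d → False

/-- No Moser spindle. -/
def SpFree (G : SimpleGraph V) : Prop :=
  ∀ a b c d e f g, a ≠ d → a ≠ g → b ≠ e → b ≠ f → c ≠ e → c ≠ f →
    G.Adj a b → G.Adj a c → G.Adj b c → G.Adj b d → G.Adj c d →
    G.Adj a e → G.Adj a f → G.Adj e f → G.Adj e g → G.Adj f g → G.Adj d g → False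

theorem Ind.mono {G : SimpleGraph V} {I J : Finset V} (h : Ind G J) (hIJ : I ⊆ J) : Ind G I :=
  fun a ha b hb => h a (hIJ ha) b (hIJ hb)

/-- A listing of seven vertices with independence number two contradicts `Seven`. -/
theorem Seven.false {G : SimpleGraph V} (h : Seven G) (p : Fin 7 → V) (hp : Function.Injective p)
    (E : Fin 7 → Fin 7 → Bool) (hE : ∀ i j, E i j = true → G.Adj (p i) (p j))
    (hd : ∀ i j k : Fin 7, i ≠ j → j ≠ k → i ≠ k → (E i j = true ∨ E j k = true ∨ E i k = true)) :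
    False := by
  have hc : (Finset.univ.image p).card = 7 := by
    rw [Finset.card_image_of_injective _ hp]; simp
  obtain ⟨a, ha, b, hb, c, hc', hab, hbc, hac, h1, h2, h3⟩ := h _ hc
  simp only [Finset.mem_image, Finset.mem_univ, true_and] at ha hb hc'
  obtain ⟨i, rfl⟩ := ha
  obtain ⟨j, rfl⟩ := hb
  obtain ⟨k, rfl⟩ := hc'
  have hij : i ≠ j := fun e => hab (by rw [e])
  have hjk : j ≠ k := fun e => hbc (by rw [e])
  have hik : i ≠ k := fun e => hac (by rw [e])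
  rcases hd i j k hij hjk hik with h' | h' | h'
  · exact h1 (hE _ _ h')
  · exact h2 (hE _ _ h')
  · exact h3 (hE _ _ h')

/-- adjacency matrix of the spindle with vertices a b c d e f g = 0 .. 6 -/
def spE : Fin 7 → Fin 7 → Bool := fun i j =>
  (i, j) ∈ ([(0,1),(0,2),(1,2),(1,3),(2,3),(0,4),(0,5),(4,5),(4,6),(5,6),(3,6),
    (1,0),(2,0),(2,1),(3,1),(3,2),(4,0),(5,0),(5,4),(6,4),(6,5),(6,3)] : List (Fin 7 × Fin 7))

theorem spE_dec : ∀ i j k : Fin 7, i ≠ j → j ≠ k → i ≠ k →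
    (spE i j = true ∨ spE j k = true ∨ spE i k = true) := by
  decide

theorem inj7 (a b c d e f g : V) (h : [a, b, c, d, e, f, g].Nodup) :
    Function.Injective (![a, b, c, d, e, f, g] : Fin 7 → V) := by
  have h2 : (![a, b, c, d, e, f, g] : Fin 7 → V) = fun i => [a, b, c, d, e, f, g].get i := by
    funext i
    fin_cases i <;> rfl
  rw [h2]
  exact List.nodup_iff_injective_get.mp h

theorem Seven.spFree {G : SimpleGraph V} (h : Seven G) (hK : K4Free G) : SpFree G := by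
  intro a b c d e f g had hag hbe hbf hce hcf ab ac bc bd cd ae af ef eg fg dg
  have nad : ¬ G.Adj a d := fun x => hK a b c d ab ac x bc bd cd
  have nag : ¬ G.Adj a g := fun x => hK a e f g ae af x ef eg fg
  have hbg : b ≠ g := fun x => nag (x ▸ ab)
  have hcg : c ≠ g := fun x => nag (x ▸ ac)
  have hde : d ≠ e := fun x => nad (x ▸ ae)
  have hdf : d ≠ f := fun x => nad (x ▸ af)
  apply h.false ![a, b, c, d, e, f, g] (inj7 a b c d e f g ?_) spE ?_ spE_dec
  · simp only [List.nodup_cons, List.mem_cons, List.not_mem_nil, or_false, not_or,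
      List.nodup_nil, and_true, not_false_eq_true]
    refine ⟨⟨ab.ne, ac.ne, had, ae.ne, af.ne, hag⟩, ⟨bc.ne, bd.ne, hbe, hbf, hbg⟩,
      ⟨cd.ne, hce, hcf, hcg⟩, ⟨hde, hdf, dg.ne⟩, ⟨ef.ne, eg.ne⟩, fg.ne⟩
  · intro i j hij
    simp only [spE, decide_eq_true_eq, List.mem_cons, Prod.mk.injEq, List.not_mem_nil,
      or_false] at hij
    rcases hij with ⟨rfl, rfl⟩ | ⟨rfl, rfl⟩ | ⟨rfl, rfl⟩ | ⟨rfl, rfl⟩ | ⟨rfl, rfl⟩ | ⟨rfl, rfl⟩ |
      ⟨rfl, rfl⟩ | ⟨rfl, rfl⟩ | ⟨rfl, rfl⟩ | ⟨rfl, rfl⟩ | ⟨rfl, rfl⟩ | ⟨rfl, rfl⟩ | ⟨rfl, rfl⟩ |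
      ⟨rfl, rfl⟩ | ⟨rfl, rfl⟩ | ⟨rfl, rfl⟩ | ⟨rfl, rfl⟩ | ⟨rfl, rfl⟩ | ⟨rfl, rfl⟩ | ⟨rfl, rfl⟩ |
      ⟨rfl, rfl⟩ | ⟨rfl, rfl⟩
    · exact ab
    · exact ac
    · exact bc
    · exact bd
    · exact cd
    · exact ae
    · exact af
    · exact ef
    · exact eg
    · exact fg
    · exact dg
    · exact ab.symm
    · exact ac.symm
    · exact bc.symm
    · exact bd.symm
    · exact cd.symm
    · exact ae.symm
    · exact af.symm
    · exact ef.symm
    · exact eg.symm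
    · exact fg.symm
    · exact dg.symm

end Dad
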