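import Mathlib
import Pool.Agent.Lib.MP_dadbe9_co.Basic

/-!
Turan's bound by deleting a vertex of minimum degree, and the case with a `K_4`.
-/

namespace Dad

open Finset
open scoped Classical

variable {V : Type*} [Fintype V]

/-- neighbours -/
noncomputable def N (G : SimpleGraph V) (u : V) : Finset V := univ.filter (fun v => G.Adj u v)

theorem mem_N {G : SimpleGraph V} {u v : V} : v ∈ N G u ↔ G.Adj u v := by simp [N]

/-- number of ordered adjacent pairs in `C` -/
noncomputable def e2 (G : SimpleGraph V) (C : Finset V) : ℕ := ∑ u ∈ C, (C ∩ N G u).card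

theorem arith1 (P Q a m : ℕ) (h : m ^ 2 ≤ P * Q) : (a + m) ^ 2 ≤ (P + 1) * (Q + a ^ 2) := by
  have h2 : 2 * a * m ≤ P * a ^ 2 + Q := by
    by_contra hcon
    push Not at hcon
    have h3 : (P * a ^ 2 + Q) ^ 2 < (2 * a * m) ^ 2 := Nat.pow_lt_pow_left hcon (by norm_num)
    have h4 : (2 * a * m) ^ 2 ≤ 4 * a ^ 2 * (P * Q) := by
      calc (2 * a * m) ^ 2 = 4 * a ^ 2 * m ^ 2 := by ring
        _ ≤ 4 * a ^ 2 * (P * Q) := Nat.mul_le_mul_left _ h
    have h5 : (P * a ^ 2 + Q) ^ 2 < 4 * a ^ 2 * (P * Q) := lt_of_lt_of_le h3 h4
    have h6 : ((P : ℤ) * a ^ 2 + Q) ^ 2 < 4 * a ^ 2 * (P * Q) := by exact_mod_cast h5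
    nlinarith [sq_nonneg ((P : ℤ) * a ^ 2 - Q)]
  nlinarith

theorem turan (G : SimpleGraph V) : ∀ (m : ℕ) (C : Finset V), C.card = m →
    ∃ I ⊆ C, Ind G I ∧ C.card ^ 2 ≤ I.card * (C.card + e2 G C) := by
  intro m
  induction m using Nat.strong_induction_on with
  | _ m ih =>
    intro C hC
    rcases C.eq_empty_or_nonempty with rfl | hne
    · exact ⟨∅, by simp, fun a ha => by simp at ha, by simp⟩
    · obtain ⟨v, hv, hmin⟩ := Finset.exists_min_image C (fun u => (C ∩ N G u).card) hne
      set R : Finset V := insert v (C ∩ N G v) with hR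
      have hvn : v ∉ C ∩ N G v := by simp [mem_N]
      have hRC : R ⊆ C := by
        intro w hw
        rw [hR, Finset.mem_insert] at hw
        rcases hw with rfl | hw
        · exact hv
        · exact (Finset.mem_inter.mp hw).1
      have hRcard : R.card = (C ∩ N G v).card + 1 := Finset.card_insert_of_notMem hvn
      have hsum : (C \ R).card + R.card = C.card := Finset.card_sdiff_add_card_eq_card hRC
      have hlt : (C \ R).card < m := by omega
      obtain ⟨I, hIC, hI, hIcard⟩ := ih _ hlt (C \ R) rfl
      have hvI : v ∉ I := by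
        intro h
        have := hIC h
        rw [Finset.mem_sdiff] at this
        exact this.2 (Finset.mem_insert_self _ _)
      have hnad : ∀ w ∈ I, ¬ G.Adj v w := by
        intro w hw hadj
        have h1 := hIC hw
        rw [Finset.mem_sdiff] at h1
        apply h1.2
        rw [hR]
        exact Finset.mem_insert_of_mem (Finset.mem_inter.mpr ⟨h1.1, mem_N.mpr hadj⟩)
      refine ⟨insert v I, ?_, ?_, ?_⟩
      · intro w hw
        rw [Finset.mem_insert] at hw
        rcases hw with rfl | hw
        · exact hv
        · exact (Finset.mem_sdiff.mp (hIC hw)).1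
      · intro a ha b hb
        rw [Finset.mem_insert] at ha hb
        rcases ha with rfl | ha <;> rcases hb with rfl | hb
        · exact G.irrefl
        · exact hnad b hb
        · exact fun h => hnad a ha h.symm
        · exact hI a ha b hb
      · rw [Finset.card_insert_of_notMem hvI]
        have he : e2 G (C \ R) + R.card * (R.card - 1) ≤ e2 G C := by
          have h1 : e2 G C = ∑ u ∈ C \ R, (C ∩ N G u).card + ∑ u ∈ R, (C ∩ N G u).card :=
            (Finset.sum_sdiff hRC).symm
          have h2 : e2 G (C \ R) ≤ ∑ u ∈ C \ R, (C ∩ N G u).card := by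
            unfold e2
            apply Finset.sum_le_sum
            intro u _
            exact Finset.card_le_card (Finset.inter_subset_inter Finset.sdiff_subset (subset_refl _))
          have h3 : R.card * (R.card - 1) ≤ ∑ u ∈ R, (C ∩ N G u).card := by
            have h4 : ∑ _u ∈ R, (R.card - 1) ≤ ∑ u ∈ R, (C ∩ N G u).card := by
              apply Finset.sum_le_sum
              intro u hu
              have h9 := hmin u (hRC hu)
              omega
            rw [Finset.sum_const, smul_eq_mul] at h4
            exact h4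
          omega
        have h5 := arith1 I.card ((C \ R).card + e2 G (C \ R)) R.card (C \ R).card hIcard
        have h6 : (C \ R).card + e2 G (C \ R) + R.card ^ 2 ≤ C.card + e2 G C := by
          have h7 : R.card ^ 2 = R.card * (R.card - 1) + R.card := by
            obtain ⟨k, hk⟩ : ∃ k, R.card = k + 1 := ⟨_, hRcard⟩
            rw [hk]; simp; ring
          omega
        calc C.card ^ 2 = (R.card + (C \ R).card) ^ 2 := by rw [← hsum]; ring
          _ ≤ _ := h5
          _ ≤ _ := Nat.mul_le_mul_left _ h6

/-- Turan's bound when all independent sets have at most `t` elements. -/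
theorem turan_le {G : SimpleGraph V} {t : ℕ} (ht : ∀ I : Finset V, Ind G I → I.card ≤ t)
    (C : Finset V) : C.card ^ 2 ≤ t * (C.card + e2 G C) := by
  obtain ⟨I, _, hI, h⟩ := turan G _ C rfl
  exact h.trans (Nat.mul_le_mul_right _ (ht I hI))

/-- If there is a `K_4` then there are few vertices. -/
theorem card_of_K4 {G : SimpleGraph V} {t : ℕ} (ht : ∀ I : Finset V, Ind G I → I.card ≤ t)
    (h : Seven G) (hK : ¬ K4Free G) : Fintype.card V ≤ t * (t + 1) + 4 := by
  unfold K4Free at hK
  push Not at hK
  obtain ⟨a, b, c, d, ab, ac, ad, bc, bd, cd, -⟩ := hK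
  set Q : Finset V := {a, b, c, d} with hQ
  have hQcard : Q.card ≤ 4 := Finset.card_le_four
  -- the rest is triangle free
  have htri : ∀ x y z, x ∉ Q → y ∉ Q → z ∉ Q → G.Adj x y → G.Adj y z → G.Adj x z → False := by
    intro x y z hx hy hz xy yz xz
    simp only [hQ, Finset.mem_insert, Finset.mem_singleton, not_or] at hx hy hz
    apply h.false ![a, b, c, d, x, y, z] (inj7 a b c d x y z ?_)
      (fun i j => decide (i ≠ j ∧ ((i.val < 4 ∧ j.val < 4) ∨ (4 ≤ i.val ∧ 4 ≤ j.val)))) ?_
      (by decide)
    · simp only [List.nodup_cons, List.mem_cons, List.not_mem_nil, or_false, not_or,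
        List.nodup_nil, and_true, not_false_eq_true]
      refine ⟨⟨ab.ne, ac.ne, ad.ne, ?_, ?_, ?_⟩, ⟨bc.ne, bd.ne, ?_, ?_, ?_⟩, ⟨cd.ne, ?_, ?_, ?_⟩,
        ⟨?_, ?_, ?_⟩, ⟨xy.ne, xz.ne⟩, yz.ne⟩
      · exact fun e => hx.1 e.symm
      · exact fun e => hy.1 e.symm
      · exact fun e => hz.1 e.symm
      · exact fun e => hx.2.1 e.symm
      · exact fun e => hy.2.1 e.symm
      · exact fun e => hz.2.1 e.symm
      · exact fun e => hx.2.2.1 e.symm
      · exact fun e => hy.2.2.1 e.symm
      · exact fun e => hz.2.2.1 e.symm
      · exact fun e => hx.2.2.2 e.symm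
      · exact fun e => hy.2.2.2 e.symm
      · exact fun e => hz.2.2.2 e.symm
    · intro i j hij
      have hij' := of_decide_eq_true hij
      clear hij
      fin_cases i <;> fin_cases j <;>
        first
          | exact absurd rfl hij'.1
          | exact ab
          | exact ac
          | exact ad
          | exact bc
          | exact bd
          | exact cd
          | exact xy
          | exact xz
          | exact yz
          | exact ab.symm
          | exact ac.symm
          | exact ad.symm
          | exact bc.symm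
          | exact bd.symm
          | exact cd.symm
          | exact xy.symm
          | exact xz.symm
          | exact yz.symm
          | exact absurd hij'.2 (by decide)
  -- Turan with degrees at most `t`
  set C : Finset V := univ \ Q with hC
  have h1 := turan_le ht C
  have h2 : e2 G C ≤ C.card * t := by
    unfold e2
    have h3 : ∑ u ∈ C, (C ∩ N G u).card ≤ ∑ _u ∈ C, t := by
      apply Finset.sum_le_sum
      intro u hu
      apply ht
      intro x hx y hy hxy
      rw [Finset.mem_inter, mem_N] at hx hy
      have hu' : u ∉ Q := by rw [hC, Finset.mem_sdiff] at hu; exact hu.2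
      have hx' : x ∉ Q := by rw [hC, Finset.mem_sdiff] at hx; exact hx.1.2
      have hy' : y ∉ Q := by rw [hC, Finset.mem_sdiff] at hy; exact hy.1.2
      exact htri u x y hu' hx' hy' hx.2 hxy hy.2
    rw [Finset.sum_const, smul_eq_mul] at h3
    exact h3
  have h3 : C.card ≤ t * (t + 1) := by
    rcases Nat.eq_zero_or_pos C.card with h0 | hpos
    · rw [h0]; exact Nat.zero_le _
    · have h4 : C.card * C.card ≤ C.card * (t * (t + 1)) := by
        calc C.card * C.card = C.card ^ 2 := by ring
          _ ≤ t * (C.card + e2 G C) := h1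
          _ ≤ t * (C.card + C.card * t) := Nat.mul_le_mul_left _ (by omega)
          _ = C.card * (t * (t + 1)) := by ring
      exact Nat.le_of_mul_le_mul_left h4 hpos
  have h4 : C.card + Q.card = Fintype.card V := by
    rw [hC, Finset.card_sdiff_add_card_eq_card (Finset.subset_univ _), Finset.card_univ]
  omega

end Dad
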