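import Mathlib
import Pool.Agent.Lib.MP_dadbe9_co.Turan

/-!
Cleaning: a large subgraph in whose links all independent sets expand.
-/

namespace Dad

open Finset
open scoped Classical

variable {V : Type*} [Fintype V]

/-- all neighbours of a set -/
noncomputable def NS (G : SimpleGraph V) (I : Finset V) : Finset V :=
  univ.filter (fun v => ∃ i ∈ I, G.Adj i v)

theorem mem_NS {G : SimpleGraph V} {I : Finset V} {v : V} :
    v ∈ NS G I ↔ ∃ i ∈ I, G.Adj i v := by simp [NS]

/-- states of the cleaning process -/
structure St (G : SimpleGraph V) (M0 : V → Finset V) (k : ℕ) (M I : V → Finset V) : Prop where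
  sub : ∀ u, M u ⊆ M0 u
  symm : ∀ u v, v ∈ M u → u ∈ M v
  ind : ∀ u, Ind G (I u)
  dis : ∀ u, ∀ v ∈ M u, v ∉ I u ∧ v ∉ NS G (I u)
  cnt : ∑ u, (M0 u).card ≤ ∑ u, (M u).card + 2 * k * ∑ u, (I u).card

theorem clean {G : SimpleGraph V} {t : ℕ} (ht : ∀ I : Finset V, Ind G I → I.card ≤ t)
    (M0 : V → Finset V) (hsymm : ∀ u v, v ∈ M0 u → u ∈ M0 v) (c : ℕ) :
    ∃ M : V → Finset V, (∀ u, M u ⊆ M0 u) ∧ (∀ u v, v ∈ M u → u ∈ M v) ∧
      (∀ u, ∀ I : Finset V, I ⊆ M u → Ind G I → (c + 1) * I.card ≤ (NS G I ∩ M u).card) ∧
      ∑ u, (M0 u).card ≤ ∑ u, (M u).card + 2 * (c + 2) * (Fintype.card V * t) := by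
  have hne : ((Finset.univ : Finset ((V → Finset V) × (V → Finset V))).filter
      (fun S => St G M0 (c + 2) S.1 S.2)).Nonempty := by
    refine ⟨(M0, fun _ => ∅), ?_⟩
    rw [Finset.mem_filter]
    refine ⟨Finset.mem_univ _, ⟨fun u => subset_refl _, hsymm, ?_, ?_, ?_⟩⟩
    · intro u a ha; simp at ha
    · intro u v _
      refine ⟨by simp, ?_⟩
      rw [mem_NS]
      rintro ⟨i, hi, -⟩
      simp at hi
    · simp
  obtain ⟨S, hS, hmax⟩ := Finset.exists_max_image _
    (fun S : (V → Finset V) × (V → Finset V) => ∑ u, (S.2 u).card) hne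
  obtain ⟨M, I⟩ := S
  rw [Finset.mem_filter] at hS
  obtain ⟨-, hst⟩ := hS
  simp only at hst
  refine ⟨M, hst.sub, hst.symm, ?_, ?_⟩
  · intro u J hJ hJind
    by_contra hcon
    push Not at hcon
    set R : Finset V := J ∪ (NS G J ∩ M u) with hR
    have hRM : R ⊆ M u := Finset.union_subset hJ Finset.inter_subset_right
    have hRcard : R.card ≤ (c + 2) * J.card := by
      have h1 : R.card ≤ J.card + (NS G J ∩ M u).card := Finset.card_union_le _ _
      calc R.card ≤ J.card + (NS G J ∩ M u).card := h1
        _ ≤ J.card + (c + 1) * J.card := Nat.add_le_add_left hcon.le _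
        _ = (c + 2) * J.card := by ring
    have hJpos : 0 < J.card := by
      rcases Nat.eq_zero_or_pos J.card with h | h
      · rw [h] at hcon; simp at hcon
      · exact h
    set M' : V → Finset V := fun v => (M v).filter
      (fun w => ¬ ((v = u ∧ w ∈ R) ∨ (w = u ∧ v ∈ R))) with hM'
    set I' : V → Finset V := fun v => if v = u then I u ∪ J else I v with hI'
    have hdisj : Disjoint (I u) J := by
      rw [Finset.disjoint_left]
      intro a ha haJ
      exact (hst.dis u a (hJ haJ)).1 ha
    have hcardI : ∑ v, (I' v).card = ∑ v, (I v).card + J.card := by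
      rw [← Finset.add_sum_erase _ _ (Finset.mem_univ u),
        ← Finset.add_sum_erase (a := u) (f := fun v => (I v).card) _ (Finset.mem_univ u)]
      have h1 : (I' u).card = (I u).card + J.card := by
        simp only [hI', if_true]
        exact Finset.card_union_of_disjoint hdisj
      have h2 : ∑ v ∈ Finset.univ.erase u, (I' v).card = ∑ v ∈ Finset.univ.erase u, (I v).card := by
        apply Finset.sum_congr rfl
        intro v hv
        have hvu : v ≠ u := Finset.ne_of_mem_erase hv
        simp only [hI', if_neg hvu]
      rw [h1, h2]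
      ring
    have hcardM : ∑ v, (M v).card ≤ ∑ v, (M' v).card + 2 * R.card := by
      have h1 : ∀ v, (M v).card ≤ (M' v).card + ((if v = u then R.card else 0) +
          (if v ∈ R then 1 else 0)) := by
        intro v
        have hsub : M v ⊆ M' v ∪ ((if v = u then R else ∅) ∪ (if v ∈ R then {u} else ∅)) := by
          intro w hw
          rw [Finset.mem_union, Finset.mem_union]
          by_cases h : (v = u ∧ w ∈ R) ∨ (w = u ∧ v ∈ R)
          · right
            rcases h with ⟨h1, h2⟩ | ⟨h1, h2⟩
            · left; rw [if_pos h1]; exact h2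
            · right; rw [if_pos h2]; simp [h1]
          · left
            simp only [hM', Finset.mem_filter]
            exact ⟨hw, h⟩
        refine (Finset.card_le_card hsub).trans ((Finset.card_union_le _ _).trans ?_)
        refine Nat.add_le_add_left ((Finset.card_union_le _ _).trans ?_) _
        apply Nat.add_le_add
        · by_cases h : v = u <;> simp [h]
        · by_cases h : v ∈ R <;> simp [h]
      calc ∑ v, (M v).card ≤ ∑ v, ((M' v).card + ((if v = u then R.card else 0) +
          (if v ∈ R then 1 else 0))) := Finset.sum_le_sum (fun v _ => h1 v)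
        _ = ∑ v, (M' v).card + (∑ v, (if v = u then R.card else 0) +
          ∑ v, (if v ∈ R then 1 else 0)) := by
            rw [Finset.sum_add_distrib, Finset.sum_add_distrib]
        _ = ∑ v, (M' v).card + 2 * R.card := by
            rw [Finset.sum_ite_eq' Finset.univ u, if_pos (Finset.mem_univ u)]
            have h3 : ∑ v, (if v ∈ R then 1 else 0) = R.card := by
              rw [Finset.sum_ite_mem, Finset.univ_inter, Finset.sum_const, smul_eq_mul, mul_one]
            rw [h3]
            ring
    have hst' : St G M0 (c + 2) M' I' := by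
      refine ⟨?_, ?_, ?_, ?_, ?_⟩
      · intro v
        exact (Finset.filter_subset _ _).trans (hst.sub v)
      · intro v w hw
        simp only [hM', Finset.mem_filter] at hw ⊢
        refine ⟨hst.symm v w hw.1, ?_⟩
        intro h
        apply hw.2
        rcases h with h | h
        · exact Or.inr h
        · exact Or.inl h
      · intro v
        by_cases hv : v = u
        · simp only [hI', if_pos hv]
          intro a ha b hb
          rw [Finset.mem_union] at ha hb
          rcases ha with ha | ha <;> rcases hb with hb | hb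
          · exact hst.ind u a ha b hb
          · intro hab
            exact (hst.dis u b (hJ hb)).2 (mem_NS.mpr ⟨a, ha, hab⟩)
          · intro hab
            exact (hst.dis u a (hJ ha)).2 (mem_NS.mpr ⟨b, hb, hab.symm⟩)
          · exact hJind a ha b hb
        · simp only [hI', if_neg hv]
          exact hst.ind v
      · intro v w hw
        simp only [hM', Finset.mem_filter, not_or, not_and] at hw
        by_cases hv : v = u
        · subst hv
          simp only [hI', if_true]
          have hwR : w ∉ R := hw.2.1 rfl
          have hold := hst.dis v w hw.1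
          constructor
          · rw [Finset.mem_union, not_or]
            exact ⟨hold.1, fun h => hwR (Finset.mem_union_left _ h)⟩
          · rw [mem_NS]
            rintro ⟨i, hi, hiw⟩
            rw [Finset.mem_union] at hi
            rcases hi with hi | hi
            · exact hold.2 (mem_NS.mpr ⟨i, hi, hiw⟩)
            · exact hwR (Finset.mem_union_right _
                (Finset.mem_inter.mpr ⟨mem_NS.mpr ⟨i, hi, hiw⟩, hw.1⟩))
        · simp only [hI', if_neg hv]
          exact hst.dis v w hw.1
      · rw [hcardI]
        have h1 := hst.cnt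
        have h2 : 2 * R.card ≤ 2 * (c + 2) * J.card := by
          calc 2 * R.card ≤ 2 * ((c + 2) * J.card) := Nat.mul_le_mul_left _ hRcard
            _ = 2 * (c + 2) * J.card := by ring
        have h3 : 2 * (c + 2) * (∑ v, (I v).card + J.card) =
            2 * (c + 2) * ∑ v, (I v).card + 2 * (c + 2) * J.card := by ring
        rw [h3]
        omega
    have h1 := hmax (M', I') (by rw [Finset.mem_filter]; exact ⟨Finset.mem_univ _, hst'⟩)
    simp only at h1
    rw [hcardI] at h1
    omega
  · have h1 := hst.cnt
    have h2 : ∑ u, (I u).card ≤ Fintype.card V * t := by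
      calc ∑ u, (I u).card ≤ ∑ _u : V, t := Finset.sum_le_sum (fun u _ => ht _ (hst.ind u))
        _ = Fintype.card V * t := by
          rw [Finset.sum_const, smul_eq_mul, Finset.card_univ]
    calc ∑ u, (M0 u).card ≤ ∑ u, (M u).card + 2 * (c + 2) * ∑ u, (I u).card := h1
      _ ≤ _ := Nat.add_le_add_left (Nat.mul_le_mul_left _ h2) _

end Dad
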