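import Mathlib
import Pool.Agent.Lib.MP_dadbe9_co.Turan

/-!
Dependent random choice with `r` sample points.
-/

namespace Dad

open Finset
open scoped Classical

variable {V : Type*} [Fintype V]

theorem drc {G : SimpleGraph V} {t : ℕ} (ht : ∀ I : Finset V, Ind G I → I.card ≤ t)
    (U : Finset V) (Y : V → Finset V) (D : Finset V) (hY : ∀ u ∈ U, Y u ⊆ D) (hD : D.card ≤ t)
    (r : ℕ) :
    (∑ u ∈ U, (Y u).card ^ r) ^ 2 ≤ t ^ (r + 1) * (∑ u ∈ U, (Y u).card ^ r +
      ∑ u ∈ U, ∑ v ∈ U ∩ N G u, (Y u ∩ Y v).card ^ r) := by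
  set T : Finset (Fin r → V) := Fintype.piFinset (fun _ : Fin r => D) with hT
  set W : (Fin r → V) → Finset V := fun y => U.filter (fun u => ∀ i, y i ∈ Y u) with hW
  have hTcard : T.card ≤ t ^ r := by
    rw [hT, Fintype.card_piFinset_const]
    exact Nat.pow_le_pow_left hD r
  have hA : ∑ y ∈ T, (W y).card = ∑ u ∈ U, (Y u).card ^ r := by
    have h1 : ∀ y, (W y).card = ∑ u ∈ U, if (∀ i, y i ∈ Y u) then 1 else 0 := by
      intro y
      rw [hW, Finset.card_filter]
    simp only [h1]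
    rw [Finset.sum_comm]
    apply Finset.sum_congr rfl
    intro u hu
    rw [← Finset.card_filter, ← Fintype.card_piFinset_const]
    congr 1
    ext y
    rw [Finset.mem_filter, hT, Fintype.mem_piFinset, Fintype.mem_piFinset]
    constructor
    · rintro ⟨-, h⟩
      exact h
    · intro h
      exact ⟨fun i => hY u hu (h i), h⟩
  have hB : ∑ y ∈ T, e2 G (W y) = ∑ u ∈ U, ∑ v ∈ U ∩ N G u, (Y u ∩ Y v).card ^ r := by
    have h1 : ∀ y, e2 G (W y) = ∑ u ∈ U, ∑ v ∈ U ∩ N G u,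
        if ((∀ i, y i ∈ Y u) ∧ (∀ i, y i ∈ Y v)) then 1 else 0 := by
      intro y
      unfold e2
      rw [hW, Finset.sum_filter]
      apply Finset.sum_congr rfl
      intro u hu
      by_cases h : ∀ i, y i ∈ Y u
      · rw [if_pos h, ← Finset.card_filter]
        congr 1
        ext v
        simp only [Finset.mem_inter, Finset.mem_filter]
        constructor
        · rintro ⟨⟨a, b⟩, c⟩
          exact ⟨⟨a, c⟩, h, b⟩
        · rintro ⟨⟨a, c⟩, -, b⟩
          exact ⟨⟨a, b⟩, c⟩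
      · rw [if_neg h]
        symm
        apply Finset.sum_eq_zero
        intro v _
        rw [if_neg]
        exact fun hh => h hh.1
    simp only [h1]
    rw [Finset.sum_comm]
    apply Finset.sum_congr rfl
    intro u hu
    rw [Finset.sum_comm]
    apply Finset.sum_congr rfl
    intro v hv
    rw [← Finset.card_filter, ← Fintype.card_piFinset_const]
    congr 1
    ext y
    rw [Finset.mem_filter, hT, Fintype.mem_piFinset, Fintype.mem_piFinset]
    constructor
    · rintro ⟨-, h1, h2⟩ i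
      exact Finset.mem_inter.mpr ⟨h1 i, h2 i⟩
    · intro h
      exact ⟨fun i => hY u hu (Finset.mem_inter.mp (h i)).1,
        fun i => (Finset.mem_inter.mp (h i)).1, fun i => (Finset.mem_inter.mp (h i)).2⟩
  calc (∑ u ∈ U, (Y u).card ^ r) ^ 2 = (∑ y ∈ T, (W y).card) ^ 2 := by rw [hA]
    _ ≤ T.card * ∑ y ∈ T, (W y).card ^ 2 := sq_sum_le_card_mul_sum_sq
    _ ≤ t ^ r * ∑ y ∈ T, t * ((W y).card + e2 G (W y)) := by
        apply Nat.mul_le_mul hTcard
        exact Finset.sum_le_sum (fun y _ => turan_le ht (W y))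
    _ = t ^ (r + 1) * (∑ y ∈ T, (W y).card + ∑ y ∈ T, e2 G (W y)) := by
        rw [← Finset.mul_sum, Finset.sum_add_distrib]
        ring
    _ = _ := by rw [hA, hB]

/-- Summed version: `(∑ A_w)^2 ≤ n t^{r+1} (∑ A_w + ∑ B_w)`. -/
theorem drc_sum {G : SimpleGraph V} {t : ℕ} (ht : ∀ I : Finset V, Ind G I → I.card ≤ t)
    (U : V → Finset V) (Y : V → V → Finset V) (D : V → Finset V)
    (hY : ∀ w, ∀ u ∈ U w, Y w u ⊆ D w) (hD : ∀ w, (D w).card ≤ t) (r : ℕ) :
    (∑ w, ∑ u ∈ U w, (Y w u).card ^ r) ^ 2 ≤ Fintype.card V * t ^ (r + 1) *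
      (∑ w, ∑ u ∈ U w, (Y w u).card ^ r +
        ∑ w, ∑ u ∈ U w, ∑ v ∈ U w ∩ N G u, (Y w u ∩ Y w v).card ^ r) := by
  calc (∑ w, ∑ u ∈ U w, (Y w u).card ^ r) ^ 2
      ≤ (Finset.univ : Finset V).card * ∑ w, (∑ u ∈ U w, (Y w u).card ^ r) ^ 2 :=
        sq_sum_le_card_mul_sum_sq
    _ ≤ Fintype.card V * ∑ w, t ^ (r + 1) * (∑ u ∈ U w, (Y w u).card ^ r +
        ∑ u ∈ U w, ∑ v ∈ U w ∩ N G u, (Y w u ∩ Y w v).card ^ r) := by
        rw [Finset.card_univ]
        apply Nat.mul_le_mul_left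
        exact Finset.sum_le_sum (fun w _ => drc ht (U w) (Y w) (D w) (hY w) (hD w) r)
    _ = _ := by
        rw [← Finset.mul_sum, Finset.sum_add_distrib]
        ring

end Dad
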