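import Mathlib
import Pool.Agent.Lib.MP_dadbe9_co.Turan

/-!
Strong pairs, and a small set of neighbours whose removal makes the pairs strong.
-/

namespace Dad

open Finset
open scoped Classical

variable {V : Type*} [Fintype V]

/-- No two vertices cover all edges in the common neighbourhood of `b` and `y`. -/
def Strong (G : SimpleGraph V) (b y : V) : Prop :=
  ∀ p q, ∃ u s, G.Adj u s ∧ G.Adj b u ∧ G.Adj b s ∧ G.Adj y u ∧ G.Adj y s ∧
    u ≠ p ∧ u ≠ q ∧ s ≠ p ∧ s ≠ q

/-- a strong `y` is not adjacent to another tip `y'` -/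
theorem strong_nadj {G : SimpleGraph V} (hS : SpFree G) {b y y' u' s' : V}
    (hb : b ≠ y) (hb' : b ≠ y') (h : Strong G b y) (us : G.Adj u' s') (bu : G.Adj b u')
    (bs : G.Adj b s') (yu : G.Adj y' u') (ys : G.Adj y' s') : ¬ G.Adj y y' := by
  intro hyy
  obtain ⟨u, s, h1, h2, h3, h4, h5, h6, h7, h8, h9⟩ := h u' s'
  exact hS b u s y u' s' y' hb hb' h6 h7 h8 h9 h2 h3 h1 h4.symm h5.symm bu bs us yu.symm ys.symm
    hyy

/-- tips over two disjoint edges are not adjacent -/
theorem tips_nadj {G : SimpleGraph V} (hS : SpFree G) {b y y' u s u' s' : V}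
    (hb : b ≠ y) (hb' : b ≠ y') (us : G.Adj u s) (bu : G.Adj b u) (bs : G.Adj b s)
    (yu : G.Adj y u) (ys : G.Adj y s) (us' : G.Adj u' s') (bu' : G.Adj b u') (bs' : G.Adj b s')
    (yu' : G.Adj y' u') (ys' : G.Adj y' s') (h1 : u ≠ u') (h2 : u ≠ s') (h3 : s ≠ u')
    (h4 : s ≠ s') : ¬ G.Adj y y' := by
  intro hyy
  exact hS b u s y u' s' y' hb hb' h1 h2 h3 h4 bu bs us yu.symm ys.symm bu' bs' us' yu'.symm
    ys'.symm hyy

/-- the edge `us` in the neighbourhood of `b` has a weak tip -/
def Fb (G : SimpleGraph V) (b u s : V) : Prop :=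
  G.Adj u s ∧ G.Adj b u ∧ G.Adj b s ∧ ∃ y, b ≠ y ∧ G.Adj y u ∧ G.Adj y s ∧ ¬ Strong G b y

/-- matchings of the relation `Fb` -/
def IsMat (G : SimpleGraph V) (b : V) (P : Finset (V × V)) : Prop :=
  (∀ p ∈ P, Fb G b p.1 p.2) ∧
    ∀ p ∈ P, ∀ q ∈ P, p ≠ q → p.1 ≠ q.1 ∧ p.1 ≠ q.2 ∧ p.2 ≠ q.1 ∧ p.2 ≠ q.2

theorem IsMat.card_le {G : SimpleGraph V} {t : ℕ} (ht : ∀ I : Finset V, Ind G I → I.card ≤ t)
    (hS : SpFree G) {b : V} {P : Finset (V × V)} (hP : IsMat G b P) :
    P.card ≤ 2 * t := by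
  have hy : ∀ p : V × V, ∃ y : V, p ∈ P → (b ≠ y ∧ G.Adj y p.1 ∧ G.Adj y p.2 ∧ ¬ Strong G b y) := by
    intro p
    by_cases hp : p ∈ P
    · obtain ⟨-, -, -, y, hy⟩ := hP.1 p hp
      exact ⟨y, fun _ => hy⟩
    · exact ⟨b, fun h => absurd h hp⟩
  choose y hy using hy
  have hind : Ind G (P.image y) := by
    intro a ha a' ha'
    rw [Finset.mem_image] at ha ha'
    obtain ⟨p, hp, rfl⟩ := ha
    obtain ⟨q, hq, rfl⟩ := ha'
    by_cases hpq : p = q
    · subst hpq
      exact G.irrefl
    · obtain ⟨h1, h2, h3, h4⟩ := hP.2 p hp q hq hpq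
      obtain ⟨a1, a2, a3, -⟩ := hP.1 p hp
      obtain ⟨b1, b2, b3, -⟩ := hP.1 q hq
      obtain ⟨c1, c2, c3, -⟩ := hy p hp
      obtain ⟨d1, d2, d3, -⟩ := hy q hq
      exact tips_nadj hS c1 d1 a1 a2 a3 c2 c3 b1 b2 b3 d2 d3 h1 h2 h3 h4
  have hfib : ∀ z ∈ P.image y, (P.filter (fun x => y x = z)).card ≤ 2 := by
    intro z hz
    rw [Finset.mem_image] at hz
    obtain ⟨p0, hp0, rfl⟩ := hz
    have hw := (hy p0 hp0).2.2.2
    unfold Strong at hw
    push Not at hw
    obtain ⟨c, d, hcd⟩ := hw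
    -- every element of the fibre meets `{c, d}`
    have hmeet : ∀ x ∈ P.filter (fun x => y x = y p0), x.1 = c ∨ x.2 = c ∨ x.1 = d ∨ x.2 = d := by
      intro x hx
      rw [Finset.mem_filter] at hx
      obtain ⟨hxP, hxy⟩ := hx
      obtain ⟨a1, a2, a3, -⟩ := hP.1 x hxP
      obtain ⟨c1, c2, c3, -⟩ := hy x hxP
      rw [hxy] at c1 c2 c3
      by_contra hcon
      push Not at hcon
      exact hcon.2.2.2 (hcd x.1 x.2 a1 a2 a3 c2 c3 hcon.1 hcon.2.2.1 hcon.2.1)
    have hmap : ∀ x ∈ P.filter (fun x => y x = y p0),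
        (fun x : V × V => if x.1 = c ∨ x.2 = c then c else d) x ∈ ({c, d} : Finset V) := by
      intro x _
      by_cases h : x.1 = c ∨ x.2 = c <;> simp [h]
    have hinj : Set.InjOn (fun x : V × V => if x.1 = c ∨ x.2 = c then c else d)
        (P.filter (fun x => y x = y p0) : Finset (V × V)) := by
      intro x hx x' hx' hxx
      rw [Finset.mem_coe] at hx hx'
      have hm := hmeet x hx
      have hm' := hmeet x' hx'
      rw [Finset.mem_filter] at hx hx'
      by_contra hne
      obtain ⟨h1, h2, h3, h4⟩ := hP.2 x hx.1 x' hx'.1 hne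
      simp only at hxx
      by_cases hc : x.1 = c ∨ x.2 = c
      · by_cases hc' : x'.1 = c ∨ x'.2 = c
        · rcases hc with hc | hc <;> rcases hc' with hc' | hc'
          · exact h1 (hc.trans hc'.symm)
          · exact h2 (hc.trans hc'.symm)
          · exact h3 (hc.trans hc'.symm)
          · exact h4 (hc.trans hc'.symm)
        · rw [if_pos hc, if_neg hc'] at hxx
          subst hxx
          rcases hm' with h | h | h | h
          · exact hc' (Or.inl h)
          · exact hc' (Or.inr h)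
          · exact hc' (Or.inl h)
          · exact hc' (Or.inr h)
      · have hd : x.1 = d ∨ x.2 = d := by
          rcases hm with h | h | h | h
          · exact absurd (Or.inl h) hc
          · exact absurd (Or.inr h) hc
          · exact Or.inl h
          · exact Or.inr h
        by_cases hc' : x'.1 = c ∨ x'.2 = c
        · rw [if_neg hc, if_pos hc'] at hxx
          subst hxx
          exact hc hd
        · have hd' : x'.1 = d ∨ x'.2 = d := by
            rcases hm' with h | h | h | h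
            · exact absurd (Or.inl h) hc'
            · exact absurd (Or.inr h) hc'
            · exact Or.inl h
            · exact Or.inr h
          rcases hd with hc | hc <;> rcases hd' with hc' | hc'
          · exact h1 (hc.trans hc'.symm)
          · exact h2 (hc.trans hc'.symm)
          · exact h3 (hc.trans hc'.symm)
          · exact h4 (hc.trans hc'.symm)
    exact (Finset.card_le_card_of_injOn _ hmap hinj).trans Finset.card_le_two
  have h1 := Finset.card_le_mul_card_image P 2 hfib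
  have h2 := ht _ hind
  omega

/-- Removing at most `4 t` neighbours of `b` makes the pairs with `b` strong. -/
theorem exists_X {G : SimpleGraph V} {t : ℕ} (ht : ∀ I : Finset V, Ind G I → I.card ≤ t)
    (hS : SpFree G) (b : V) :
    ∃ X : Finset V, X.card ≤ 4 * t ∧ ∀ u s y, u ∉ X → s ∉ X → b ≠ y → G.Adj u s → G.Adj b u →
      G.Adj b s → G.Adj y u → G.Adj y s → Strong G b y := by
  have hne : ((Finset.univ : Finset (Finset (V × V))).filter (fun P => IsMat G b P)).Nonempty := by
    refine ⟨∅, ?_⟩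
    rw [Finset.mem_filter]
    refine ⟨Finset.mem_univ _, ?_, ?_⟩
    · intro p hp; simp at hp
    · intro p hp; simp at hp
  obtain ⟨P, hP, hmax⟩ := Finset.exists_max_image _ (fun P : Finset (V × V) => P.card) hne
  rw [Finset.mem_filter] at hP
  have hcard := hP.2.card_le ht hS
  refine ⟨P.image Prod.fst ∪ P.image Prod.snd, ?_, ?_⟩
  · have h1 := Finset.card_union_le (P.image Prod.fst) (P.image Prod.snd)
    have h2 := Finset.card_image_le (s := P) (f := Prod.fst)
    have h3 := Finset.card_image_le (s := P) (f := Prod.snd)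
    omega
  · intro u s y hu hs hby us bu bs yu ys
    by_contra hst
    rw [Finset.mem_union, not_or] at hu hs
    have hu1 : ∀ p ∈ P, p.1 ≠ u := fun p hp h => hu.1 (Finset.mem_image.mpr ⟨p, hp, h⟩)
    have hu2 : ∀ p ∈ P, p.2 ≠ u := fun p hp h => hu.2 (Finset.mem_image.mpr ⟨p, hp, h⟩)
    have hs1 : ∀ p ∈ P, p.1 ≠ s := fun p hp h => hs.1 (Finset.mem_image.mpr ⟨p, hp, h⟩)
    have hs2 : ∀ p ∈ P, p.2 ≠ s := fun p hp h => hs.2 (Finset.mem_image.mpr ⟨p, hp, h⟩)
    have hnot : (u, s) ∉ P := fun h => hu1 _ h rfl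
    have hmat : IsMat G b (insert (u, s) P) := by
      constructor
      · intro p hp
        rw [Finset.mem_insert] at hp
        rcases hp with rfl | hp
        · exact ⟨us, bu, bs, y, hby, yu, ys, hst⟩
        · exact hP.2.1 p hp
      · intro p hp q hq hpq
        rw [Finset.mem_insert] at hp hq
        rcases hp with rfl | hp <;> rcases hq with rfl | hq
        · exact absurd rfl hpq
        · exact ⟨(hu1 q hq).symm, (hu2 q hq).symm, (hs1 q hq).symm, (hs2 q hq).symm⟩
        · exact ⟨hu1 p hp, hs1 p hp, hu2 p hp, hs2 p hp⟩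
        · exact hP.2.2 p hp q hq hpq
    have h1 := hmax (insert (u, s) P) (by rw [Finset.mem_filter]; exact ⟨Finset.mem_univ _, hmat⟩)
    rw [Finset.card_insert_of_notMem hnot] at h1
    omega

end Dad
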