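import Mathlib
import Pool.Agent.Lib.MP_dadbe9_co.Strong
import Pool.Agent.Lib.MP_dadbe9_co.Clean
import Pool.Agent.Lib.MP_dadbe9_co.Drc

/-!
The two counting inequalities (one and three sample points).
-/

namespace Dad

open Finset
open scoped Classical

variable {V : Type*} [Fintype V]

/-- The situation after cleaning. -/
structure Setup (G : SimpleGraph V) (t c : ℕ) (X M : V → Finset V) : Prop where
  ht : ∀ I : Finset V, Ind G I → I.card ≤ t
  hK : K4Free G
  hS : SpFree G
  Xcard : ∀ b, (X b).card ≤ 4 * t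
  Xstr : ∀ b u s y, u ∉ X b → s ∉ X b → b ≠ y → G.Adj u s → G.Adj b u → G.Adj b s →
    G.Adj y u → G.Adj y s → Strong G b y
  sub : ∀ u v, v ∈ M u → G.Adj u v ∧ v ∉ X u ∧ u ∉ X v
  symm : ∀ u v, v ∈ M u → u ∈ M v
  exp : ∀ u, ∀ I : Finset V, I ⊆ M u → Ind G I → (c + 1) * I.card ≤ (NS G I ∩ M u).card

theorem ind_common {G : SimpleGraph V} (hK : K4Free G) {u w : V} (h : G.Adj u w) {I : Finset V}
    (h1 : ∀ a ∈ I, G.Adj u a ∧ G.Adj w a) : Ind G I := by
  intro a ha b hb hab
  exact hK u w a b h (h1 a ha).1 (h1 b hb).1 (h1 a ha).2 (h1 b hb).2 hab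

theorem ind_of_strong {G : SimpleGraph V} (hS : SpFree G) {b : V} {D : Finset V}
    (h : ∀ y ∈ D, b ≠ y ∧ Strong G b y) : Ind G D := by
  intro y hy y' hy'
  obtain ⟨h1, h2⟩ := h y hy
  obtain ⟨h3, h4⟩ := h y' hy'
  obtain ⟨u, s, a1, a2, a3, a4, a5, -⟩ := h4 b b
  exact strong_nadj hS h1 h3 h2 a1 a2 a3 a4 a5

variable {G : SimpleGraph V} {t c : ℕ} {X M : V → Finset V}

theorem Setup.kap (S : Setup G t c X M) {u w : V} (h : G.Adj u w) :
    (c + 1) * (M u ∩ M w).card ≤ t := by
  have hind : Ind G (M u ∩ M w) := ind_common S.hK h (fun a ha => by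
    rw [Finset.mem_inter] at ha
    exact ⟨(S.sub _ _ ha.1).1, (S.sub _ _ ha.2).1⟩)
  refine (S.exp u _ Finset.inter_subset_left hind).trans (S.ht _ ?_)
  intro y1 hy1 y2 hy2 hyy
  rw [Finset.mem_inter, mem_NS] at hy1 hy2
  obtain ⟨⟨s1, hs1, hsy1⟩, hyu1⟩ := hy1
  obtain ⟨⟨s2, hs2, hsy2⟩, hyu2⟩ := hy2
  have huy1 := (S.sub _ _ hyu1).1
  have huy2 := (S.sub _ _ hyu2).1
  by_cases hss : s1 = s2
  · subst hss
    rw [Finset.mem_inter] at hs1
    exact S.hK u s1 y1 y2 (S.sub _ _ hs1.1).1 huy1 huy2 hsy1 hsy2 hyy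
  · have hn : ¬ G.Adj s1 s2 := hind s1 hs1 s2 hs2
    rw [Finset.mem_inter] at hs1 hs2
    have a1 := S.sub _ _ hs1.1
    have a2 := S.sub _ _ hs1.2
    have b1 := S.sub _ _ hs2.1
    have b2 := S.sub _ _ hs2.2
    have hstr : Strong G s1 s2 :=
      S.Xstr s1 u w s2 a1.2.2 a2.2.2 hss h a1.1.symm a2.1.symm b1.1.symm b2.1.symm
    have hne : s1 ≠ y2 := by
      intro e
      apply hn
      rw [e]
      exact hsy2.symm
    exact strong_nadj S.hS hss hne hstr huy1 a1.1.symm hsy1 huy2.symm hyy.symm hsy2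

/-- codegree sums -/
noncomputable def KK (G : SimpleGraph V) (M : V → Finset V) (i : ℕ) : ℕ :=
  ∑ u, ∑ v ∈ N G u, (M u ∩ M v).card ^ i

theorem swap (P : V → Finset V) (hP : ∀ u v, v ∈ P u → u ∈ P v) (f : V → V → ℕ) :
    ∑ w, ∑ u ∈ P w, ∑ v ∈ P w ∩ N G u, f u v = ∑ u, ∑ v ∈ N G u, (P u ∩ P v).card * f u v := by
  have h1 : ∑ w, ∑ u ∈ P w, ∑ v ∈ P w ∩ N G u, f u v =
      ∑ w, ∑ u, ∑ v, if (w ∈ P u ∧ w ∈ P v ∧ v ∈ N G u) then f u v else 0 := by
    apply Finset.sum_congr rfl
    intro w _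
    rw [← Finset.sum_subset (Finset.subset_univ (P w))]
    · apply Finset.sum_congr rfl
      intro u hu
      rw [← Finset.sum_subset (Finset.subset_univ (P w ∩ N G u))]
      · apply Finset.sum_congr rfl
        intro v hv
        rw [Finset.mem_inter] at hv
        rw [if_pos ⟨hP _ _ hu, hP _ _ hv.1, hv.2⟩]
      · intro v _ hv
        rw [if_neg]
        rintro ⟨-, h2, h3⟩
        exact hv (Finset.mem_inter.mpr ⟨hP _ _ h2, h3⟩)
    · intro u _ hu
      apply Finset.sum_eq_zero
      intro v _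
      rw [if_neg]
      rintro ⟨h1, -, -⟩
      exact hu (hP _ _ h1)
  have h2 : ∑ u, ∑ v ∈ N G u, (P u ∩ P v).card * f u v =
      ∑ u, ∑ v, ∑ w, if (w ∈ P u ∧ w ∈ P v ∧ v ∈ N G u) then f u v else 0 := by
    apply Finset.sum_congr rfl
    intro u _
    rw [← Finset.sum_subset (Finset.subset_univ (N G u))]
    · apply Finset.sum_congr rfl
      intro v hv
      rw [← smul_eq_mul, ← Finset.sum_const]
      rw [← Finset.sum_subset (Finset.subset_univ (P u ∩ P v))]
      · apply Finset.sum_congr rfl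
        intro w hw
        rw [Finset.mem_inter] at hw
        rw [if_pos ⟨hw.1, hw.2, hv⟩]
      · intro w _ hw
        rw [if_neg]
        rintro ⟨h1, h2, -⟩
        exact hw (Finset.mem_inter.mpr ⟨h1, h2⟩)
    · intro v _ hv
      apply Finset.sum_eq_zero
      intro w _
      rw [if_neg]
      rintro ⟨-, -, h⟩
      exact hv h
  rw [h1, h2, Finset.sum_comm]
  apply Finset.sum_congr rfl
  intro u _
  rw [Finset.sum_comm]

/-- two ways of counting triangles with two edges in `M` -/
theorem Setup.count (S : Setup G t c X M) (b : V) (Q : Finset V) :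
    ∑ u ∈ M b, (Q ∩ M u).card = ∑ s ∈ Q, (M b ∩ M s).card := by
  have h1 : ∀ u, (Q ∩ M u).card = ∑ s ∈ Q, if s ∈ M u then 1 else 0 := by
    intro u
    rw [← Finset.card_filter, Finset.filter_mem_eq_inter]
  have h2 : ∀ s, (M b ∩ M s).card = ∑ u ∈ M b, if s ∈ M u then 1 else 0 := by
    intro s
    rw [← Finset.card_filter]
    congr 1
    ext u
    rw [Finset.mem_inter, Finset.mem_filter]
    exact ⟨fun h => ⟨h.1, S.symm _ _ h.2⟩, fun h => ⟨h.1, S.symm _ _ h.2⟩⟩
  simp only [h1, h2]
  exact Finset.sum_comm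

theorem Setup.K1_lower (S : Setup G t c X M) : (c + 1) * ∑ u, (M u).card ≤ KK G M 1 := by
  have h1 : KK G M 1 = ∑ b, ∑ u ∈ M b, (N G b ∩ M u).card := by
    unfold KK
    apply Finset.sum_congr rfl
    intro b _
    rw [S.count b (N G b)]
    simp only [pow_one]
  rw [h1, Finset.mul_sum]
  apply Finset.sum_le_sum
  intro b _
  have h2 : ∀ u ∈ M b, (c + 1) ≤ (N G b ∩ M u).card := by
    intro u hu
    have h3 := S.exp u {b} (by
      rw [Finset.singleton_subset_iff]; exact S.symm _ _ hu) (by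
      intro a ha a' ha'
      rw [Finset.mem_singleton] at ha ha'
      rw [ha, ha']
      exact G.irrefl)
    rw [Finset.card_singleton, mul_one] at h3
    have h4 : NS G {b} = N G b := by
      ext v
      rw [mem_NS, mem_N]
      constructor
      · rintro ⟨i, hi, h⟩
        rw [Finset.mem_singleton] at hi
        rw [← hi]
        exact h
      · intro h
        exact ⟨b, Finset.mem_singleton_self b, h⟩
    rw [h4] at h3
    exact h3
  calc (c + 1) * (M b).card = ∑ _u ∈ M b, (c + 1) := by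
        rw [Finset.sum_const, smul_eq_mul, mul_comm]
    _ ≤ _ := Finset.sum_le_sum h2

/-- general expansion step -/
theorem Setup.Ycard (S : Setup G t c X M) {w u : V} {J : Finset V} (hJ : J ⊆ M u)
    (hind : Ind G J) : c * J.card ≤ ((NS G J ∩ M u).erase w).card := by
  rcases Nat.eq_zero_or_pos J.card with h0 | hpos
  · rw [h0]; simp
  · have h1 := S.exp u J hJ hind
    have h2 : (NS G J ∩ M u).card - 1 ≤ ((NS G J ∩ M u).erase w).card :=
      Finset.pred_card_le_card_erase
    have h3 : (c + 1) * J.card = c * J.card + J.card := by ring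
    omega

theorem Setup.r1 (S : Setup G t c X M) : ∃ A : ℕ,
    c * KK G M 1 ≤ A + 4 * (Fintype.card V * t ^ 2) ∧
    A ^ 2 ≤ Fintype.card V * t ^ 2 * (A + KK G M 2) := by
  set J : V → V → Finset V := fun b u => (N G b ∩ M u) \ X b with hJ
  set Y : V → V → Finset V := fun b u => (NS G (J b u) ∩ M u).erase b with hYd
  have hY2 : ∀ b u, u ∈ M b → ∀ y ∈ Y b u, b ≠ y ∧ Strong G b y := by
    intro b u hu y hy
    simp only [hYd, Finset.mem_erase, Finset.mem_inter, mem_NS] at hy
    obtain ⟨hyb, ⟨s, hs, hsy⟩, hyu⟩ := hy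
    simp only [hJ, Finset.mem_sdiff, Finset.mem_inter, mem_N] at hs
    obtain ⟨⟨hbs, hsu⟩, hsX⟩ := hs
    have h1 := S.sub _ _ hu
    have h2 := S.sub _ _ hyu
    have h3 := S.sub _ _ hsu
    exact ⟨hyb.symm, S.Xstr b u s y h1.2.1 hsX hyb.symm h3.1 h1.1 hbs h2.1.symm hsy.symm⟩
  set D : V → Finset V := fun b => (M b).biUnion (Y b) with hD
  have hDcard : ∀ b, (D b).card ≤ t := by
    intro b
    apply S.ht
    apply ind_of_strong S.hS (b := b)
    intro y hy
    simp only [hD, Finset.mem_biUnion] at hy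
    obtain ⟨u, hu, hy⟩ := hy
    exact hY2 b u hu y hy
  have hmain := drc_sum S.ht M Y D
    (fun w u hu => Finset.subset_biUnion_of_mem (Y w) hu) hDcard 1
  simp only [pow_one] at hmain
  refine ⟨∑ w, ∑ u ∈ M w, (Y w u).card, ?_, ?_⟩
  · have h1 : KK G M 1 = ∑ b, ∑ u ∈ M b, (N G b ∩ M u).card := by
      unfold KK
      apply Finset.sum_congr rfl
      intro b _
      rw [S.count b (N G b)]
      simp only [pow_one]
    have h2 : ∀ b, c * ∑ u ∈ M b, (N G b ∩ M u).card ≤ ∑ u ∈ M b, (Y b u).card + 4 * t ^ 2 := by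
      intro b
      have h3 : ∀ u ∈ M b, c * (N G b ∩ M u).card ≤ (Y b u).card + c * ((X b ∩ N G b) ∩ M u).card := by
        intro u hu
        have h4 : c * (J b u).card ≤ (Y b u).card := by
          apply S.Ycard
          · intro s hs
            simp only [hJ, Finset.mem_sdiff, Finset.mem_inter] at hs
            exact hs.1.2
          · apply ind_common S.hK (u := b) (w := u) (S.sub _ _ hu).1
            intro s hs
            simp only [hJ, Finset.mem_sdiff, Finset.mem_inter, mem_N] at hs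
            exact ⟨hs.1.1, (S.sub _ _ hs.1.2).1⟩
        have h5 : (N G b ∩ M u).card ≤ (J b u).card + ((X b ∩ N G b) ∩ M u).card := by
          refine le_trans (Finset.card_le_card ?_) (Finset.card_union_le _ _)
          intro s hs
          rw [Finset.mem_inter] at hs
          rw [Finset.mem_union]
          by_cases hX : s ∈ X b
          · right
            exact Finset.mem_inter.mpr ⟨Finset.mem_inter.mpr ⟨hX, hs.1⟩, hs.2⟩
          · left
            simp only [hJ]
            exact Finset.mem_sdiff.mpr ⟨Finset.mem_inter.mpr hs, hX⟩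
        calc c * (N G b ∩ M u).card ≤ c * ((J b u).card + ((X b ∩ N G b) ∩ M u).card) :=
              Nat.mul_le_mul_left _ h5
          _ = c * (J b u).card + c * ((X b ∩ N G b) ∩ M u).card := by ring
          _ ≤ _ := Nat.add_le_add_right h4 _
      have h6 : ∑ u ∈ M b, c * ((X b ∩ N G b) ∩ M u).card ≤ 4 * t ^ 2 := by
        rw [← Finset.mul_sum, S.count b (X b ∩ N G b), Finset.mul_sum]
        calc ∑ s ∈ X b ∩ N G b, c * (M b ∩ M s).card ≤ ∑ _s ∈ X b ∩ N G b, t := by
              apply Finset.sum_le_sum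
              intro s hs
              rw [Finset.mem_inter, mem_N] at hs
              refine le_trans (Nat.mul_le_mul_right _ (Nat.le_succ c)) (S.kap hs.2)
          _ = (X b ∩ N G b).card * t := by rw [Finset.sum_const, smul_eq_mul]
          _ ≤ 4 * t * t := Nat.mul_le_mul_right _
              ((Finset.card_le_card Finset.inter_subset_left).trans (S.Xcard b))
          _ = 4 * t ^ 2 := by ring
      calc c * ∑ u ∈ M b, (N G b ∩ M u).card = ∑ u ∈ M b, c * (N G b ∩ M u).card :=
            Finset.mul_sum _ _ _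
        _ ≤ ∑ u ∈ M b, ((Y b u).card + c * ((X b ∩ N G b) ∩ M u).card) := Finset.sum_le_sum h3
        _ = ∑ u ∈ M b, (Y b u).card + ∑ u ∈ M b, c * ((X b ∩ N G b) ∩ M u).card :=
            Finset.sum_add_distrib
        _ ≤ _ := Nat.add_le_add_left h6 _
    rw [h1, Finset.mul_sum]
    calc ∑ b, c * ∑ u ∈ M b, (N G b ∩ M u).card
        ≤ ∑ b, (∑ u ∈ M b, (Y b u).card + 4 * t ^ 2) := Finset.sum_le_sum (fun b _ => h2 b)
      _ = _ := by
        rw [Finset.sum_add_distrib, Finset.sum_const, smul_eq_mul, Finset.card_univ]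
        ring
  · refine hmain.trans (Nat.mul_le_mul_left _ (Nat.add_le_add_left ?_ _))
    have h1 : KK G M 2 = ∑ u, ∑ v ∈ N G u, (M u ∩ M v).card * (M u ∩ M v).card := by
      unfold KK
      apply Finset.sum_congr rfl
      intro u _
      apply Finset.sum_congr rfl
      intro v _
      ring
    rw [h1, ← swap M S.symm (fun u v => (M u ∩ M v).card)]
    apply Finset.sum_le_sum
    intro w _
    apply Finset.sum_le_sum
    intro u _
    apply Finset.sum_le_sum
    intro v _
    apply Finset.card_le_card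
    intro y hy
    rw [Finset.mem_inter] at hy
    simp only [hYd, Finset.mem_erase, Finset.mem_inter] at hy
    exact Finset.mem_inter.mpr ⟨hy.1.2.2, hy.2.2.2⟩

theorem Setup.r3 (S : Setup G t c X M) : ∃ A : ℕ,
    c ^ 3 * KK G M 3 ≤ A + 4 * (Fintype.card V * t ^ 4) ∧
    A ^ 2 ≤ Fintype.card V * t ^ 4 * (A + t * KK G M 3) := by
  set U : V → Finset V := fun w => N G w \ X w with hU
  set Y : V → V → Finset V := fun w u => (NS G (M u ∩ M w) ∩ M u).erase w with hYd
  have hY2 : ∀ w u, u ∈ U w → ∀ y ∈ Y w u, w ≠ y ∧ Strong G w y := by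
    intro w u hu y hy
    simp only [hYd, Finset.mem_erase, Finset.mem_inter, mem_NS] at hy
    obtain ⟨hyb, ⟨s, hs, hsy⟩, hyu⟩ := hy
    simp only [hU, Finset.mem_sdiff, mem_N] at hu
    have h2 := S.sub _ _ hyu
    have h3 := S.sub _ _ hs.1
    have h4 := S.sub _ _ hs.2
    exact ⟨hyb.symm, S.Xstr w u s y hu.2 h4.2.1 hyb.symm h3.1 hu.1 h4.1 h2.1.symm hsy.symm⟩
  set D : V → Finset V := fun w => (U w).biUnion (Y w) with hD
  have hDcard : ∀ w, (D w).card ≤ t := by
    intro w
    apply S.ht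
    apply ind_of_strong S.hS (b := w)
    intro y hy
    simp only [hD, Finset.mem_biUnion] at hy
    obtain ⟨u, hu, hy⟩ := hy
    exact hY2 w u hu y hy
  have hmain := drc_sum S.ht U Y D
    (fun w u hu => Finset.subset_biUnion_of_mem (Y w) hu) hDcard 3
  refine ⟨∑ w, ∑ u ∈ U w, (Y w u).card ^ 3, ?_, ?_⟩
  · have h2 : ∀ w, c ^ 3 * ∑ u ∈ N G w, (M w ∩ M u).card ^ 3 ≤
        ∑ u ∈ U w, (Y w u).card ^ 3 + 4 * t ^ 4 := by
      intro w
      have hsplit : N G w = U w ∪ (N G w ∩ X w) := by
        ext u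
        simp only [hU, Finset.mem_union, Finset.mem_sdiff, Finset.mem_inter]
        tauto
      have hdisj : Disjoint (U w) (N G w ∩ X w) := by
        rw [Finset.disjoint_left]
        intro a ha hb
        simp only [hU, Finset.mem_sdiff] at ha
        exact ha.2 (Finset.mem_inter.mp hb).2
      have h3 : ∀ u ∈ U w, c ^ 3 * (M w ∩ M u).card ^ 3 ≤ (Y w u).card ^ 3 := by
        intro u hu
        rw [← mul_pow]
        apply Nat.pow_le_pow_left
        rw [Finset.inter_comm]
        apply S.Ycard Finset.inter_subset_left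
        simp only [hU, Finset.mem_sdiff, mem_N] at hu
        apply ind_common S.hK (u := u) (w := w) hu.1.symm
        intro s hs
        rw [Finset.mem_inter] at hs
        exact ⟨(S.sub _ _ hs.1).1, (S.sub _ _ hs.2).1⟩
      have h4 : ∑ u ∈ N G w ∩ X w, c ^ 3 * (M w ∩ M u).card ^ 3 ≤ 4 * t ^ 4 := by
        calc ∑ u ∈ N G w ∩ X w, c ^ 3 * (M w ∩ M u).card ^ 3 ≤ ∑ _u ∈ N G w ∩ X w, t ^ 3 := by
              apply Finset.sum_le_sum
              intro u hu
              rw [Finset.mem_inter, mem_N] at hu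
              rw [← mul_pow]
              apply Nat.pow_le_pow_left
              exact le_trans (Nat.mul_le_mul_right _ (Nat.le_succ c)) (S.kap hu.1)
          _ = (N G w ∩ X w).card * t ^ 3 := by rw [Finset.sum_const, smul_eq_mul]
          _ ≤ 4 * t * t ^ 3 := Nat.mul_le_mul_right _
              ((Finset.card_le_card Finset.inter_subset_right).trans (S.Xcard w))
          _ = 4 * t ^ 4 := by ring
      rw [Finset.mul_sum]
      calc ∑ u ∈ N G w, c ^ 3 * (M w ∩ M u).card ^ 3
          = ∑ u ∈ U w, c ^ 3 * (M w ∩ M u).card ^ 3 +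
            ∑ u ∈ N G w ∩ X w, c ^ 3 * (M w ∩ M u).card ^ 3 := by
            conv_lhs => rw [hsplit]
            exact Finset.sum_union hdisj
        _ ≤ _ := Nat.add_le_add (Finset.sum_le_sum h3) h4
    unfold KK
    rw [Finset.mul_sum]
    calc ∑ w, c ^ 3 * ∑ u ∈ N G w, (M w ∩ M u).card ^ 3
        ≤ ∑ w, (∑ u ∈ U w, (Y w u).card ^ 3 + 4 * t ^ 4) := Finset.sum_le_sum (fun w _ => h2 w)
      _ = _ := by
        rw [Finset.sum_add_distrib, Finset.sum_const, smul_eq_mul, Finset.card_univ]
        ring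
  · refine hmain.trans (Nat.mul_le_mul_left _ (Nat.add_le_add_left ?_ _))
    have hN : ∀ u v, v ∈ N G u → u ∈ N G v := by
      intro u v h
      rw [mem_N] at h ⊢
      exact h.symm
    calc ∑ w, ∑ u ∈ U w, ∑ v ∈ U w ∩ N G u, (Y w u ∩ Y w v).card ^ 3
        ≤ ∑ w, ∑ u ∈ N G w, ∑ v ∈ N G w ∩ N G u, (M u ∩ M v).card ^ 3 := by
          apply Finset.sum_le_sum
          intro w _
          refine le_trans (Finset.sum_le_sum (fun u _ => ?_))
            (Finset.sum_le_sum_of_subset (f := fun u =>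
              ∑ v ∈ N G w ∩ N G u, (M u ∩ M v).card ^ 3) Finset.sdiff_subset)
          refine le_trans (Finset.sum_le_sum (fun v _ => ?_))
            (Finset.sum_le_sum_of_subset (f := fun v => (M u ∩ M v).card ^ 3)
              (Finset.inter_subset_inter Finset.sdiff_subset (subset_refl _)))
          apply Nat.pow_le_pow_left
          apply Finset.card_le_card
          intro y hy
          rw [Finset.mem_inter] at hy
          simp only [hYd, Finset.mem_erase, Finset.mem_inter] at hy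
          exact Finset.mem_inter.mpr ⟨hy.1.2.2, hy.2.2.2⟩
      _ = ∑ u, ∑ v ∈ N G u, (N G u ∩ N G v).card * (M u ∩ M v).card ^ 3 :=
          swap (N G) hN (fun u v => (M u ∩ M v).card ^ 3)
      _ ≤ ∑ u, ∑ v ∈ N G u, t * (M u ∩ M v).card ^ 3 := by
          apply Finset.sum_le_sum
          intro u _
          apply Finset.sum_le_sum
          intro v hv
          apply Nat.mul_le_mul_right
          apply S.ht
          rw [mem_N] at hv
          apply ind_common S.hK (u := u) (w := v) hv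
          intro s hs
          rw [Finset.mem_inter, mem_N, mem_N] at hs
          exact hs
      _ = t * KK G M 3 := by
          unfold KK
          rw [Finset.mul_sum]
          apply Finset.sum_congr rfl
          intro u _
          rw [Finset.mul_sum]

/-- Cauchy-Schwarz between the three sums. -/
theorem KK_cs (G : SimpleGraph V) (M : V → Finset V) : KK G M 2 ^ 2 ≤ KK G M 1 * KK G M 3 := by
  have h1 : ∀ i, KK G M i = ∑ p ∈ (Finset.univ : Finset V).sigma (fun u => N G u),
      (M p.1 ∩ M p.2).card ^ i := by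
    intro i
    unfold KK
    rw [Finset.sum_sigma]
  rw [h1 1, h1 2, h1 3]
  have h2 := Finset.sum_sq_le_sum_mul_sum_of_sq_le_mul
    ((Finset.univ : Finset V).sigma (fun u => N G u))
    (f := fun p => (M p.1 ∩ M p.2).card ^ 1) (g := fun p => (M p.1 ∩ M p.2).card ^ 3)
    (r := fun p => (M p.1 ∩ M p.2).card ^ 2)
    (fun i _ => Nat.zero_le _) (fun i _ => Nat.zero_le _) (fun i _ => le_of_eq (by ring))
  exact h2

end Dad
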