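import Mathlib
import Pool.Agent.Lib.MP_dadbe9_co.Kap

/-!
The numerical end of the proof.
-/

namespace Dad

open Finset
open scoped Classical

theorem step_r1 {n t c K1 K2 A : ℝ} (hn : 0 < n) (ht : 0 < t) (hc : 0 < c)
    (h0 : 15 * c ^ 3 * n * t ≤ c * K1) (htc : t ≤ c ^ 3) (h1 : c * K1 ≤ A + 4 * (n * t ^ 2))
    (h2 : A ^ 2 ≤ n * t ^ 2 * (A + K2)) : (c * K1) ^ 2 ≤ 8 * (n * t ^ 2 * K2) := by
  have hnt : 0 < n * t := mul_pos hn ht
  have e1 : n * t ^ 2 ≤ c ^ 3 * n * t := by
    have := mul_le_mul_of_nonneg_left htc hnt.le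
    nlinarith
  have hP : 0 < n * t ^ 2 := by positivity
  have e2 : c * K1 ≤ 2 * A := by nlinarith
  have e3 : 11 * (n * t ^ 2) ≤ A := by nlinarith
  have hA : 0 < A := by nlinarith
  have e4 : n * t ^ 2 * A ≤ A ^ 2 / 2 := by nlinarith
  have e5 : A ^ 2 ≤ 2 * (n * t ^ 2 * K2) := by nlinarith
  have hK : 0 ≤ c * K1 := by
    have : 0 < 15 * c ^ 3 * n * t := by positivity
    linarith
  nlinarith

theorem step_r3 {n t c K3 A : ℝ} (hn : 0 < n) (ht : 0 < t) (hK : 0 ≤ K3)
    (hA : 0 ≤ A)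
    (htc : t ≤ c ^ 3) (h1 : c ^ 3 * K3 ≤ A + 4 * (n * t ^ 4))
    (h2 : A ^ 2 ≤ n * t ^ 4 * (A + t * K3)) : c ^ 3 * K3 ≤ 8 * (n * t ^ 4) := by
  by_contra hcon
  push Not at hcon
  have hP : 0 < n * t ^ 4 := by positivity
  set P := n * t ^ 4 with hPdef
  have e1 : c ^ 3 * K3 ≤ 2 * A := by linarith
  have e2 : 4 * P < A := by linarith
  have e3 : P * A ≤ A ^ 2 / 4 := by nlinarith
  have e4 : P * (t * K3) ≤ P * (c ^ 3 * K3) := by
    apply mul_le_mul_of_nonneg_left _ hP.le
    exact mul_le_mul_of_nonneg_right htc hK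
  have e5 : A ^ 2 * (3 / 4) ≤ P * (c ^ 3 * K3) := by nlinarith
  have e6 : P * (c ^ 3 * K3) ≤ P * (2 * A) := mul_le_mul_of_nonneg_left e1 hP.le
  have e7 : A ^ 2 * (3 / 4) ≤ P * (2 * A) := e5.trans e6
  nlinarith

theorem final_real {n t c K1 K2 K3 A B : ℝ} (hn : 0 < n) (ht : 0 < t) (hc : 0 < c)
    (hK3 : 0 ≤ K3) (hB : 0 ≤ B)
    (htc : t ≤ c ^ 3) (hnc : 30 * c * t ^ 2 ≤ n) (hK1 : c * n ^ 2 ≤ 2 * t * K1)
    (h1 : c * K1 ≤ A + 4 * (n * t ^ 2)) (h2 : A ^ 2 ≤ n * t ^ 2 * (A + K2))
    (h3 : c ^ 3 * K3 ≤ B + 4 * (n * t ^ 4)) (h4 : B ^ 2 ≤ n * t ^ 4 * (B + t * K3))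
    (h5 : K2 ^ 2 ≤ K1 * K3) : c ^ 13 ≤ t ^ 5 := by
  have k1pos : 0 < K1 := by
    have : 0 < c * n ^ 2 := by positivity
    nlinarith
  have h0 : 15 * c ^ 3 * n * t ≤ c * K1 := by
    have a1 : c * (c * n ^ 2) ≤ c * (2 * t * K1) := mul_le_mul_of_nonneg_left hK1 hc.le
    have a2 : c ^ 2 * n * (30 * c * t ^ 2) ≤ c ^ 2 * n * n :=
      mul_le_mul_of_nonneg_left hnc (by positivity)
    have a3 : (2 * t) * (15 * c ^ 3 * n * t) ≤ (2 * t) * (c * K1) := by nlinarith
    exact le_of_mul_le_mul_left a3 (by positivity)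
  have s1 := step_r1 hn ht hc h0 htc h1 h2
  have s3 := step_r3 hn ht hK3 hB htc h3 h4
  -- combine
  have b1 : (c * K1) ^ 4 ≤ 64 * (n * t ^ 2) ^ 2 * (K1 * K3) := by
    have c1 : ((c * K1) ^ 2) ^ 2 ≤ (8 * (n * t ^ 2 * K2)) ^ 2 :=
      pow_le_pow_left₀ (sq_nonneg _) s1 2
    have c2 : (8 * (n * t ^ 2 * K2)) ^ 2 = 64 * (n * t ^ 2) ^ 2 * K2 ^ 2 := by ring
    have c3 : 64 * (n * t ^ 2) ^ 2 * K2 ^ 2 ≤ 64 * (n * t ^ 2) ^ 2 * (K1 * K3) :=
      mul_le_mul_of_nonneg_left h5 (by positivity)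
    calc (c * K1) ^ 4 = ((c * K1) ^ 2) ^ 2 := by ring
      _ ≤ _ := c1
      _ = _ := c2
      _ ≤ _ := c3
  have b2 : c ^ 4 * K1 ^ 3 ≤ 64 * (n * t ^ 2) ^ 2 * K3 := by
    have c1 : K1 * (c ^ 4 * K1 ^ 3) ≤ K1 * (64 * (n * t ^ 2) ^ 2 * K3) := by
      calc K1 * (c ^ 4 * K1 ^ 3) = (c * K1) ^ 4 := by ring
        _ ≤ _ := b1
        _ = _ := by ring
    exact le_of_mul_le_mul_left c1 k1pos
  have b3 : c ^ 7 * K1 ^ 3 ≤ 512 * (n ^ 3 * t ^ 8) := by
    have c1 : c ^ 3 * (c ^ 4 * K1 ^ 3) ≤ c ^ 3 * (64 * (n * t ^ 2) ^ 2 * K3) :=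
      mul_le_mul_of_nonneg_left b2 (by positivity)
    have c2 : 64 * (n * t ^ 2) ^ 2 * (c ^ 3 * K3) ≤ 64 * (n * t ^ 2) ^ 2 * (8 * (n * t ^ 4)) :=
      mul_le_mul_of_nonneg_left s3 (by positivity)
    calc c ^ 7 * K1 ^ 3 = c ^ 3 * (c ^ 4 * K1 ^ 3) := by ring
      _ ≤ _ := c1
      _ = 64 * (n * t ^ 2) ^ 2 * (c ^ 3 * K3) := by ring
      _ ≤ _ := c2
      _ = _ := by ring
  have b4 : c ^ 3 * n ^ 6 ≤ 8 * t ^ 3 * K1 ^ 3 := by
    have c1 : (c * n ^ 2) ^ 3 ≤ (2 * t * K1) ^ 3 := pow_le_pow_left₀ (by positivity) hK1 3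
    calc c ^ 3 * n ^ 6 = (c * n ^ 2) ^ 3 := by ring
      _ ≤ _ := c1
      _ = _ := by ring
  have b5 : c ^ 10 * n ^ 3 ≤ 4096 * t ^ 11 := by
    have c1 : n ^ 3 * (c ^ 10 * n ^ 3) ≤ n ^ 3 * (4096 * t ^ 11) := by
      calc n ^ 3 * (c ^ 10 * n ^ 3) = c ^ 7 * (c ^ 3 * n ^ 6) := by ring
        _ ≤ c ^ 7 * (8 * t ^ 3 * K1 ^ 3) := mul_le_mul_of_nonneg_left b4 (by positivity)
        _ = 8 * t ^ 3 * (c ^ 7 * K1 ^ 3) := by ring
        _ ≤ 8 * t ^ 3 * (512 * (n ^ 3 * t ^ 8)) := mul_le_mul_of_nonneg_left b3 (by positivity)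
        _ = _ := by ring
    exact le_of_mul_le_mul_left c1 (by positivity)
  have b6 : c ^ 10 * (30 * c * t ^ 2) ^ 3 ≤ 4096 * t ^ 11 :=
    (mul_le_mul_of_nonneg_left (pow_le_pow_left₀ (by positivity) hnc 3) (by positivity)).trans b5
  have b7 : (27000 * t ^ 6) * c ^ 13 ≤ (27000 * t ^ 6) * t ^ 5 := by
    calc (27000 * t ^ 6) * c ^ 13 = c ^ 10 * (30 * c * t ^ 2) ^ 3 := by ring
      _ ≤ 4096 * t ^ 11 := b6
      _ ≤ 27000 * t ^ 11 := by
        have : 0 < t ^ 11 := by positivity
        linarith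
      _ = _ := by ring
  exact le_of_mul_le_mul_left b7 (by positivity)

variable {V : Type*} [Fintype V]

theorem main_K4free {G : SimpleGraph V} {t : ℕ} (ht : ∀ I : Finset V, Ind G I → I.card ≤ t)
    (h1t : 1 ≤ t) (hK : K4Free G) (hS : SpFree G) :
    (Fintype.card V) ^ 13 ≤ 60 ^ 13 * t ^ 31 := by
  set n := Fintype.card V with hn
  set c := n / (30 * t ^ 2) with hc
  have htpos : 0 < t := h1t
  have hden : 0 < 30 * t ^ 2 := by positivity
  rcases Nat.eq_zero_or_pos c with hc0 | hcpos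
  · have h1 : n < 30 * t ^ 2 := by
      rw [hc, Nat.div_eq_zero_iff] at hc0
      omega
    calc n ^ 13 ≤ (30 * t ^ 2) ^ 13 := Nat.pow_le_pow_left h1.le 13
      _ = 30 ^ 13 * t ^ 26 := by ring
      _ ≤ 60 ^ 13 * t ^ 31 := Nat.mul_le_mul (Nat.pow_le_pow_left (by norm_num) 13)
          (Nat.pow_le_pow_right htpos (by norm_num))
  · have hlow : 30 * c * t ^ 2 ≤ n := by
      have := Nat.div_mul_le_self n (30 * t ^ 2)
      rw [← hc] at this
      calc 30 * c * t ^ 2 = c * (30 * t ^ 2) := by ring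
        _ ≤ n := this
    have hup : n ≤ 60 * c * t ^ 2 := by
      have h2 : n < (c + 1) * (30 * t ^ 2) := by
        rw [hc]
        exact Nat.lt_mul_of_div_lt (Nat.lt_succ_self _) hden
      have h3 : (c + 1) * (30 * t ^ 2) ≤ (2 * c) * (30 * t ^ 2) :=
        Nat.mul_le_mul_right _ (by omega)
      calc n ≤ (2 * c) * (30 * t ^ 2) := by omega
        _ = 60 * c * t ^ 2 := by ring
    have hnpos : 0 < n := lt_of_lt_of_le (by positivity) hlow
    have key : c ^ 13 ≤ t ^ 5 := by
      by_cases htc : t ≤ c ^ 3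
      · -- the main case
        have hX := fun b => exists_X ht hS b
        choose X hXcard hXstr using hX
        set M0 : V → Finset V := fun u => univ.filter (fun v => G.Adj u v ∧ v ∉ X u ∧ u ∉ X v)
          with hM0
        have hM0symm : ∀ u v, v ∈ M0 u → u ∈ M0 v := by
          intro u v hv
          simp only [hM0, Finset.mem_filter, Finset.mem_univ, true_and] at hv ⊢
          exact ⟨hv.1.symm, hv.2.2, hv.2.1⟩
        obtain ⟨M, hMsub, hMsymm, hMexp, hMcnt⟩ := clean ht M0 hM0symm c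
        have S : Setup G t c X M :=
          { ht := ht
            hK := hK
            hS := hS
            Xcard := hXcard
            Xstr := fun b u s y h1 h2 h3 h4 h5 h6 h7 h8 => hXstr b u s y h1 h2 h3 h4 h5 h6 h7 h8
            sub := by
              intro u v hv
              have := hMsub u hv
              simp only [hM0, Finset.mem_filter, Finset.mem_univ, true_and] at this
              exact this
            symm := hMsymm
            exp := hMexp }
        have hdeg : ∑ u, (N G u).card ≤ ∑ u, (M0 u).card + 8 * (n * t) := by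
          have h1 : ∀ u, (N G u).card ≤ (M0 u).card + ((X u).card +
              (univ.filter (fun v => u ∈ X v)).card) := by
            intro u
            have hsub : N G u ⊆ M0 u ∪ (X u ∪ univ.filter (fun v => u ∈ X v)) := by
              intro v hv
              rw [mem_N] at hv
              simp only [hM0, Finset.mem_union, Finset.mem_filter, Finset.mem_univ, true_and]
              tauto
            refine (Finset.card_le_card hsub).trans ((Finset.card_union_le _ _).trans ?_)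
            exact Nat.add_le_add_left (Finset.card_union_le _ _) _
          have h2 : ∑ u, (univ.filter (fun v => u ∈ X v)).card = ∑ v, (X v).card := by
            have h3 : ∀ u, (univ.filter (fun v => u ∈ X v)).card =
                ∑ v, if u ∈ X v then 1 else 0 := fun u => Finset.card_filter _ _
            have h4 : ∀ v, (X v).card = ∑ u, if u ∈ X v then 1 else 0 := by
              intro v
              rw [← Finset.card_filter]
              congr 1
              ext u
              simp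
            simp only [h3]
            rw [Finset.sum_comm]
            exact Finset.sum_congr rfl (fun v _ => (h4 v).symm)
          have h3 : ∑ v, (X v).card ≤ n * (4 * t) := by
            calc ∑ v, (X v).card ≤ ∑ _v : V, 4 * t := Finset.sum_le_sum (fun v _ => hXcard v)
              _ = n * (4 * t) := by rw [Finset.sum_const, smul_eq_mul, Finset.card_univ]
          calc ∑ u, (N G u).card ≤ ∑ u, ((M0 u).card + ((X u).card +
              (univ.filter (fun v => u ∈ X v)).card)) := Finset.sum_le_sum (fun u _ => h1 u)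
            _ = ∑ u, (M0 u).card + (∑ u, (X u).card + ∑ v, (X v).card) := by
              rw [Finset.sum_add_distrib, Finset.sum_add_distrib, h2]
            _ ≤ ∑ u, (M0 u).card + (n * (4 * t) + n * (4 * t)) := by omega
            _ = _ := by ring
        have htur := turan_le ht (Finset.univ : Finset V)
        have he2 : e2 G (Finset.univ : Finset V) = ∑ u, (N G u).card := by
          unfold e2
          simp
        rw [he2, Finset.card_univ, ← hn] at htur
        rw [← hn] at hMcnt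
        set m' := ∑ u, (M u).card with hm'
        have hm : n ^ 2 ≤ 2 * t * m' := by
          have a1 : n ^ 2 ≤ t * (n + (m' + 2 * (c + 2) * (n * t) + 8 * (n * t))) := by
            refine htur.trans (Nat.mul_le_mul_left _ ?_)
            omega
          have a2 : t * (n + (m' + 2 * (c + 2) * (n * t) + 8 * (n * t))) =
              t * m' + (n * t + 2 * c * n * t ^ 2 + 12 * n * t ^ 2) := by ring
          have a3 : n * t ≤ c * n * t ^ 2 := by
            calc n * t = 1 * (n * t) * 1 := by ring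
              _ ≤ c * (n * t) * t := Nat.mul_le_mul (Nat.mul_le_mul_right _ hcpos) h1t
              _ = _ := by ring
          have a4 : 12 * n * t ^ 2 ≤ 12 * (c * n * t ^ 2) := by
            calc 12 * n * t ^ 2 = 1 * (12 * n * t ^ 2) := by ring
              _ ≤ c * (12 * n * t ^ 2) := Nat.mul_le_mul_right _ hcpos
              _ = _ := by ring
          have a5 : 30 * (c * n * t ^ 2) ≤ n ^ 2 := by
            calc 30 * (c * n * t ^ 2) = n * (30 * c * t ^ 2) := by ring
              _ ≤ n * n := Nat.mul_le_mul_left _ hlow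
              _ = _ := by ring
          have a6 : 2 * c * n * t ^ 2 = 2 * (c * n * t ^ 2) := by ring
          rw [a2, a6] at a1
          have a7 : 2 * t * m' = 2 * (t * m') := by ring
          rw [a7]
          omega
        have hK1 : c * n ^ 2 ≤ 2 * t * KK G M 1 := by
          calc c * n ^ 2 ≤ (c + 1) * (2 * t * m') := Nat.mul_le_mul (Nat.le_succ c) hm
            _ = 2 * t * ((c + 1) * m') := by ring
            _ ≤ _ := Nat.mul_le_mul_left _ S.K1_lower
        obtain ⟨A, hA1, hA2⟩ := S.r1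
        obtain ⟨B, hB1, hB2⟩ := S.r3
        rw [← hn] at hA1 hA2 hB1 hB2
        have hcs := KK_cs G M
        have hfin : (c : ℝ) ^ 13 ≤ (t : ℝ) ^ 5 := by
          apply final_real (n := n) (t := t) (c := c) (K1 := KK G M 1) (K2 := KK G M 2)
            (K3 := KK G M 3) (A := A) (B := B)
          · exact_mod_cast hnpos
          · exact_mod_cast htpos
          · exact_mod_cast hcpos
          · positivity
          · positivity
          · exact_mod_cast htc
          · exact_mod_cast hlow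
          · exact_mod_cast hK1
          · exact_mod_cast hA1
          · exact_mod_cast hA2
          · exact_mod_cast hB1
          · exact_mod_cast hB2
          · exact_mod_cast hcs
        exact_mod_cast hfin
      · push Not at htc
        have h1 : c ≤ t := by
          calc c = c ^ 1 := (pow_one c).symm
            _ ≤ c ^ 3 := Nat.pow_le_pow_right hcpos (by norm_num)
            _ ≤ t := htc.le
        calc c ^ 13 = (c ^ 3) ^ 4 * c := by ring
          _ ≤ t ^ 4 * t := Nat.mul_le_mul (Nat.pow_le_pow_left htc.le 4) h1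
          _ = t ^ 5 := by ring
    calc n ^ 13 ≤ (60 * c * t ^ 2) ^ 13 := Nat.pow_le_pow_left hup 13
      _ = 60 ^ 13 * c ^ 13 * t ^ 26 := by ring
      _ ≤ 60 ^ 13 * t ^ 5 * t ^ 26 := Nat.mul_le_mul_right _ (Nat.mul_le_mul_left _ key)
      _ = 60 ^ 13 * t ^ 31 := by ring

theorem main {G : SimpleGraph V} {t : ℕ} (ht : ∀ I : Finset V, Ind G I → I.card ≤ t)
    (h7 : Seven G) : (Fintype.card V) ^ 13 ≤ 60 ^ 13 * t ^ 31 := by
  rcases Nat.eq_zero_or_pos (Fintype.card V) with h0 | hpos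
  · rw [h0]; simp
  · have h1t : 1 ≤ t := by
      obtain ⟨v⟩ := Fintype.card_pos_iff.mp hpos
      have := ht {v} (by
        intro a ha b hb
        rw [Finset.mem_singleton] at ha hb
        rw [ha, hb]
        exact G.irrefl)
      simpa using this
    by_cases hK : K4Free G
    · exact main_K4free ht h1t hK (h7.spFree hK)
    · have h1 := card_of_K4 ht h7 hK
      have h2 : Fintype.card V ≤ 60 * t ^ 2 := by nlinarith
      calc (Fintype.card V) ^ 13 ≤ (60 * t ^ 2) ^ 13 := Nat.pow_le_pow_left h2 13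
        _ = 60 ^ 13 * t ^ 26 := by ring
        _ ≤ 60 ^ 13 * t ^ 31 := Nat.mul_le_mul_left _
            (Nat.pow_le_pow_right h1t (by norm_num))

end Dad
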